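import Pool.Agent.W78.GM.Basic
import Pool.Agent.H970R2.X.Dec

/-!
Project GM (helper78), task GM-L: the decomposition (`S_LAT → S_TK → S_DEC`).
-/

set_option autoImplicit false

namespace Pool.Agent.W305.GM

open Finset Filter
open Pool.Agent.H376R2.MR Pool.Agent.H970R2.X Pool.Agent.W78.GM

theorem cellP_facts {H v p : ℕ} (hp : p ∈ cellP (P1 4) H v) :
    p.Prime ∧ p % 4 = 1 ∧ (v : ℝ) / H ≤ Real.log p ∧ Real.log p < ((v : ℝ) + 1) / H := by
  obtain ⟨h1, h2⟩ := xdec_cellP hp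
  obtain ⟨h3, h4, h5⟩ := dec_cell h1
  exact ⟨h3, by simpa [P1] using h2, h4, h5⟩

theorem nm_prim_pos {z : GaussianInt} (hz : prim z) : (0 : ℝ) < nm z := nm_posR (prim_ne_zero hz)

theorem bg_zero {Z : ℝ} (hZ : 0 < Z) {z : GaussianInt} (hz : prim z)
    (h : ¬ (nm z : ℝ) ≤ Real.exp 1 * Z) : bg Z z = 0 := by
  have h0 := nm_prim_pos hz
  rw [not_le] at h
  have h1 := Real.log_lt_log (by positivity) h
  rw [Real.log_mul (Real.exp_pos 1).ne' hZ.ne', Real.log_exp] at h1
  unfold bg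
  rw [dec_w_zero (by rw [abs_of_pos (by linarith)]; linarith), zero_div]

theorem GA_eq (g : GaussianInt → ℤ) {Y : ℝ} (hY : 1 ≤ Y) (k : ℤ) :
    GA g Y k = ∑ z ∈ pball (Real.exp 2 * Y),
      ((((g z : ℝ) * w (Real.log (nm z) - Real.log Y)) / nm z : ℝ) : ℂ) * ps k z := by
  unfold GA DPG
  have hY0 : 0 < Y := by linarith
  have h12 : Real.exp 1 * Y ≤ Real.exp 2 * Y :=
    mul_le_mul_of_nonneg_right (Real.exp_le_exp.2 (by norm_num)) hY0.le
  refine Finset.sum_congr_of_eq_on_inter ?_ ?_ ?_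
  · intro z hz hz'
    exfalso
    rw [mem_pball] at hz hz'
    exact hz' ⟨hz.1, hz.2.trans h12⟩
  · intro z hz hz'
    rw [mem_pball] at hz hz'
    have h1 : bg Y z = 0 := bg_zero hY0 hz.1 (fun h => hz' ⟨hz.1, h⟩)
    have h2 := nm_prim_pos hz.1
    have h3 : w (Real.log (nm z) - Real.log Y) = 0 := by
      unfold bg at h1
      rcases div_eq_zero_iff.1 h1 with h | h
      · exact h
      · exact absurd h h2.ne'
    rw [h3]; simp
  · intro z _ _
    unfold bg
    push_cast
    ring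

section one

variable {g : GaussianInt → ℤ} {H v p : ℕ} {Y : ℝ}

/-- the part of the product with primitive `π z` -/
theorem partA (hf : FlipG g) (hH : 1 ≤ H) (hp : p ∈ cellP (P1 4) H v) (hY : 1 ≤ Y) (k : ℤ) :
    (∑ z ∈ (pball (Real.exp 1 * (Y * Real.exp (-((v : ℝ) / H))))).filter
      (fun z => prim (gp p * z)),
        (1 / (p : ℂ)) * ((g z : ℂ) * (bg (Y * Real.exp (-((v : ℝ) / H))) z : ℂ)) *
          ps k (gp p * z)) =
      (open scoped Classical in
      ∑ z ∈ pball (Real.exp 2 * Y),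
        ((((-(g z : ℝ)) * (if gp p ∣ z then
          w (Real.log (nm z) - Real.log Y - (Real.log p - (v : ℝ) / H)) else 0)) / nm z : ℝ) : ℂ) *
          ps k z) := by
  classical
  obtain ⟨hpp, hp4, hp1, hp2⟩ := cellP_facts hp
  have hp0 : (0:ℝ) < p := by exact_mod_cast hpp.pos
  have hpc : (p : ℂ) ≠ 0 := by exact_mod_cast hpp.ne_zero
  have hY0 : 0 < Y := by linarith
  have hH0 : (0:ℝ) < H := by exact_mod_cast hH
  have hlogZ : Real.log (Y * Real.exp (-((v : ℝ) / H))) = Real.log Y - (v : ℝ) / H := by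
    rw [Real.log_mul hY0.ne' (Real.exp_pos _).ne', Real.log_exp]; ring
  set Z : ℝ := Y * Real.exp (-((v : ℝ) / H)) with hZ
  have hZ0 : 0 < Z := by positivity
  have hgp : nm (gp p) = p := gp_nm hpp hp4
  have hgp0 : gp p ≠ 0 := ne_zero_of_nm hpp hgp
  have hδ1 : Real.log p - (v : ℝ) / H ≤ 1 := by
    have h3 : ((v : ℝ) + 1) / H = (v : ℝ) / H + 1 / H := by ring
    have h4 : (1 : ℝ) / H ≤ 1 := by
      rw [div_le_one hH0]; exact_mod_cast hH
    linarith
  have hpZ : (p : ℝ) * (Real.exp 1 * Z) ≤ Real.exp 2 * Y := by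
    have h5 : (p : ℝ) ≤ Real.exp (1 + (v : ℝ) / H) := by
      rw [← Real.log_le_iff_le_exp hp0]; linarith
    calc (p : ℝ) * (Real.exp 1 * Z) ≤ Real.exp (1 + (v : ℝ) / H) * (Real.exp 1 * Z) :=
          mul_le_mul_of_nonneg_right h5 (by positivity)
      _ = Real.exp 2 * Y := by
          rw [hZ]
          have : Real.exp (1 + (v : ℝ) / H) * (Real.exp 1 * (Y * Real.exp (-((v : ℝ) / H)))) =
            (Real.exp (1 + (v : ℝ) / H) * Real.exp 1 * Real.exp (-((v : ℝ) / H))) * Y := by ring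
          rw [this, ← Real.exp_add, ← Real.exp_add]
          congr 2
          ring
  set G : GaussianInt → ℂ := fun z =>
    (((-(g z : ℝ)) * w (Real.log (nm z) - Real.log Y - (Real.log p - (v : ℝ) / H)) / nm z : ℝ) : ℂ) *
      ps k z with hG
  have hR : (∑ z ∈ pball (Real.exp 2 * Y),
        ((((-(g z : ℝ)) * (if gp p ∣ z then
          w (Real.log (nm z) - Real.log Y - (Real.log p - (v : ℝ) / H)) else 0)) / nm z : ℝ) : ℂ) *
          ps k z) = ∑ z ∈ (pball (Real.exp 2 * Y)).filter (fun z => gp p ∣ z), G z := by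
    rw [Finset.sum_filter]
    refine Finset.sum_congr rfl fun z _ => ?_
    split_ifs with h
    · rfl
    · simp
  rw [hR]
  have step1 : ∀ z ∈ (pball (Real.exp 1 * Z)).filter (fun z => prim (gp p * z)),
      (1 / (p : ℂ)) * ((g z : ℂ) * (bg Z z : ℂ)) * ps k (gp p * z) = G (gp p * z) := by
    intro z hz
    rw [mem_filter, mem_pball] at hz
    obtain ⟨⟨hz1, _⟩, hz3⟩ := hz
    have hz0 := nm_prim_pos hz1
    have hfl := hf p z hpp (by simpa [P1] using hp4) hz1 hz3
    have hn : ((nm (gp p * z) : ℕ) : ℝ) = (p : ℝ) * nm z := by rw [nm_mul, hgp]; push_cast; ring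
    have hl : Real.log ((nm (gp p * z) : ℕ) : ℝ) = Real.log p + Real.log (nm z) := by
      rw [hn, Real.log_mul hp0.ne' hz0.ne']
    simp only [hG]
    rw [hfl, hl, hn]
    unfold bg
    rw [hlogZ]
    have e1 : Real.log p + Real.log (nm z) - Real.log Y - (Real.log p - (v : ℝ) / H) =
      Real.log (nm z) - (Real.log Y - (v : ℝ) / H) := by ring
    rw [e1]
    have hzc : ((nm z : ℕ) : ℂ) ≠ 0 := by exact_mod_cast hz0.ne'
    push_cast
    field_simp
  rw [Finset.sum_congr rfl step1]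
  have hinj : Set.InjOn (fun z : GaussianInt => gp p * z)
      ((pball (Real.exp 1 * Z)).filter (fun z => prim (gp p * z)) : Set GaussianInt) := by
    intro a _ b _ hab
    exact mul_left_cancel₀ hgp0 hab
  rw [← Finset.sum_image (f := G) hinj]
  refine Finset.sum_congr_of_eq_on_inter ?_ ?_ ?_
  · intro z hz hz'
    exfalso
    rw [mem_image] at hz
    obtain ⟨y, hy, rfl⟩ := hz
    rw [mem_filter, mem_pball] at hy
    apply hz'
    rw [mem_filter, mem_pball]
    refine ⟨⟨hy.2, ?_⟩, Dvd.intro y rfl⟩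
    rw [nm_mul, hgp]
    push_cast
    exact (mul_le_mul_of_nonneg_left hy.1.2 hp0.le).trans hpZ
  · intro z hz hz'
    rw [mem_filter, mem_pball] at hz
    obtain ⟨⟨hz1, _⟩, y, rfl⟩ := hz
    have hy1 : prim y := prim_of_dvd hz1 (Dvd.intro_left _ rfl)
    have hy2 : ¬ (nm y : ℝ) ≤ Real.exp 1 * Z := by
      intro h
      apply hz'
      rw [mem_image]
      exact ⟨y, by rw [mem_filter, mem_pball]; exact ⟨⟨hy1, h⟩, hz1⟩, rfl⟩
    have h1 := bg_zero hZ0 hy1 hy2
    have hy0 := nm_prim_pos hy1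
    unfold bg at h1
    have h3 : w (Real.log (nm y) - Real.log Z) = 0 := by
      rcases div_eq_zero_iff.1 h1 with h | h
      · exact h
      · exact absurd h hy0.ne'
    have hn : ((nm (gp p * y) : ℕ) : ℝ) = (p : ℝ) * nm y := by rw [nm_mul, hgp]; push_cast; ring
    have hl : Real.log ((nm (gp p * y) : ℕ) : ℝ) = Real.log p + Real.log (nm y) := by
      rw [hn, Real.log_mul hp0.ne' hy0.ne']
    simp only [hG]
    rw [hl]
    have e1 : Real.log p + Real.log (nm y) - Real.log Y - (Real.log p - (v : ℝ) / H) =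
      Real.log (nm y) - Real.log Z := by rw [hlogZ]; ring
    rw [e1, h3]
    simp
  · intro z _ _; rfl

/-- the part of the product with non-primitive `π z` -/
theorem partB (hH : 1 ≤ H) (hp : p ∈ cellP (P1 4) H v) (hY : 1 ≤ Y) (k : ℤ) :
    (∑ z ∈ (pball (Real.exp 1 * (Y * Real.exp (-((v : ℝ) / H))))).filter
      (fun z => ¬ prim (gp p * z)),
        (1 / (p : ℂ)) * ((g z : ℂ) * (bg (Y * Real.exp (-((v : ℝ) / H))) z : ℂ)) *
          ps k (gp p * z)) =
      ∑ z ∈ pball (Real.exp 2 * Y),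
        (((if prim (star (gp p) * z) then (g (star (gp p) * z) : ℝ) *
          w (Real.log (nm z) + Real.log p - Real.log Y + (v : ℝ) / H) / (p : ℝ) ^ 2 else 0) /
            nm z : ℝ) : ℂ) * ps k z := by
  classical
  obtain ⟨hpp, hp4, hp1, hp2⟩ := cellP_facts hp
  have hp0 : (0:ℝ) < p := by exact_mod_cast hpp.pos
  have hpc : (p : ℂ) ≠ 0 := by exact_mod_cast hpp.ne_zero
  have hY0 : 0 < Y := by linarith
  have hH0 : (0:ℝ) < H := by exact_mod_cast hH
  have hlogZ : Real.log (Y * Real.exp (-((v : ℝ) / H))) = Real.log Y - (v : ℝ) / H := by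
    rw [Real.log_mul hY0.ne' (Real.exp_pos _).ne', Real.log_exp]; ring
  set Z : ℝ := Y * Real.exp (-((v : ℝ) / H)) with hZ
  have hZ0 : 0 < Z := by positivity
  have hZY : Z ≤ Y := by
    rw [hZ]
    have : Real.exp (-((v : ℝ) / H)) ≤ 1 := by
      rw [Real.exp_le_one_iff]
      have : 0 ≤ (v : ℝ) / H := by positivity
      linarith
    nlinarith
  have hgp : nm (gp p) = p := gp_nm hpp hp4
  have hgs : nm (star (gp p)) = p := by rw [nm_star]; exact hgp
  have hgs0 : star (gp p) ≠ 0 := ne_zero_of_nm hpp hgs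
  have hp2' : p ≠ 2 := by
    rintro rfl
    norm_num at hp4
  set F : GaussianInt → ℂ := fun z =>
    (1 / (p : ℂ)) * ((g z : ℂ) * (bg Z z : ℂ)) * ps k (gp p * z) with hF
  have hR : (∑ z ∈ pball (Real.exp 2 * Y),
        (((if prim (star (gp p) * z) then (g (star (gp p) * z) : ℝ) *
          w (Real.log (nm z) + Real.log p - Real.log Y + (v : ℝ) / H) / (p : ℝ) ^ 2 else 0) /
            nm z : ℝ) : ℂ) * ps k z) =
      ∑ z ∈ (pball (Real.exp 2 * Y)).filter (fun z => prim (star (gp p) * z)),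
        F (star (gp p) * z) := by
    rw [Finset.sum_filter]
    refine Finset.sum_congr rfl fun z hz => ?_
    rw [mem_pball] at hz
    have hz0 := nm_prim_pos hz.1
    have hzc : ((nm z : ℕ) : ℂ) ≠ 0 := by exact_mod_cast hz0.ne'
    split_ifs with h
    · simp only [hF]
      have e0 : gp p * (star (gp p) * z) = ((p : ℕ) : GaussianInt) * z := by
        rw [← mul_assoc, mul_star_self', hgp]
      rw [e0, ps_natCast_mul hpp.pos]
      have hn : ((nm (star (gp p) * z) : ℕ) : ℝ) = (p : ℝ) * nm z := by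
        rw [nm_mul, hgs]; push_cast; ring
      have hl : Real.log ((nm (star (gp p) * z) : ℕ) : ℝ) = Real.log p + Real.log (nm z) := by
        rw [hn, Real.log_mul hp0.ne' hz0.ne']
      unfold bg
      rw [hlogZ, hl, hn]
      have e1 : Real.log p + Real.log (nm z) - (Real.log Y - (v : ℝ) / H) =
        Real.log (nm z) + Real.log p - Real.log Y + (v : ℝ) / H := by ring
      rw [e1]
      push_cast
      field_simp
    · simp
  rw [hR]
  have hinj : Set.InjOn (fun z : GaussianInt => star (gp p) * z)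
      ((pball (Real.exp 2 * Y)).filter (fun z => prim (star (gp p) * z)) : Set GaussianInt) := by
    intro a _ b _ hab
    exact mul_left_cancel₀ hgs0 hab
  rw [← Finset.sum_image (f := F) hinj]
  refine Finset.sum_congr_of_eq_on_inter ?_ ?_ ?_
  · intro z hz hz'
    exfalso
    rw [mem_filter, mem_pball] at hz
    obtain ⟨⟨hz1, hz2⟩, hz3⟩ := hz
    have h1 : star (gp p) ∣ z := by
      by_contra hcon
      exact hz3 ((prim_mul_iff hpp hp2' hgp hz1).2 hcon)
    obtain ⟨y, rfl⟩ := h1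
    apply hz'
    rw [mem_image]
    refine ⟨y, ?_, rfl⟩
    rw [mem_filter, mem_pball]
    have hy1 : prim y := prim_of_dvd hz1 (Dvd.intro_left _ rfl)
    refine ⟨⟨hy1, ?_⟩, hz1⟩
    have hy0 := nm_prim_pos hy1
    rw [nm_mul, hgs] at hz2
    push_cast at hz2
    have hp1' : (1 : ℝ) ≤ p := by exact_mod_cast hpp.one_lt.le
    have h12 : Real.exp 1 ≤ Real.exp 2 := Real.exp_le_exp.2 (by norm_num)
    calc (nm y : ℝ) ≤ (p : ℝ) * nm y := by nlinarith
      _ ≤ Real.exp 1 * Z := hz2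
      _ ≤ Real.exp 2 * Y := mul_le_mul h12 hZY hZ0.le (Real.exp_pos _).le
  · intro z hz hz'
    rw [mem_image] at hz
    obtain ⟨y, hy, rfl⟩ := hz
    rw [mem_filter, mem_pball] at hy
    obtain ⟨⟨hy1, hy2⟩, hy3⟩ := hy
    have h1 : ¬ (nm (star (gp p) * y) : ℝ) ≤ Real.exp 1 * Z := by
      intro h
      apply hz'
      rw [mem_filter, mem_pball]
      refine ⟨⟨hy3, h⟩, ?_⟩
      rw [prim_mul_iff hpp hp2' hgp hy3]
      intro hcon
      exact hcon (Dvd.intro y rfl)
    simp only [hF]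
    rw [bg_zero hZ0 hy3 h1]
    simp
  · intro z _ _; rfl

end one

open scoped Classical in
/-- the smoothed number of prime factors `gp p` -/
noncomputable def dT (H v₀ v₁ : ℕ) (Y : ℝ) (z : GaussianInt) : ℝ :=
  ∑ v ∈ Ico v₀ v₁, ∑ p ∈ cellP (P1 4) H v, if gp p ∣ z then
    w (Real.log (nm z) - Real.log Y - (Real.log p - (v : ℝ) / H)) else 0

/-- the contribution of the non-primitive products -/
noncomputable def dB (g : GaussianInt → ℤ) (H v₀ v₁ : ℕ) (Y : ℝ) (z : GaussianInt) : ℝ :=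
  ∑ v ∈ Ico v₀ v₁, ∑ p ∈ cellP (P1 4) H v, if prim (star (gp p) * z) then
    (g (star (gp p) * z) : ℝ) *
      w (Real.log (nm z) + Real.log p - Real.log Y + (v : ℝ) / H) / (p : ℝ) ^ 2 else 0

theorem sum_eq {g : GaussianInt → ℤ} (hf : FlipG g) {H v₀ v₁ : ℕ} (hH : 1 ≤ H) {Y : ℝ}
    (hY : 1 ≤ Y) (k : ℤ) :
    ∑ v ∈ Ico v₀ v₁, PG H v k * GA g (Y * Real.exp (-((v : ℝ) / H))) k =
      ∑ z ∈ pball (Real.exp 2 * Y),
        (((-(g z : ℝ) * dT H v₀ v₁ Y z + dB g H v₀ v₁ Y z) / nm z : ℝ) : ℂ) * ps k z := by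
  classical
  have h1 : ∀ v ∈ Ico v₀ v₁, PG H v k * GA g (Y * Real.exp (-((v : ℝ) / H))) k =
      ∑ z ∈ pball (Real.exp 2 * Y), ∑ p ∈ cellP (P1 4) H v,
        ((((-(g z : ℝ)) * (if gp p ∣ z then
          w (Real.log (nm z) - Real.log Y - (Real.log p - (v : ℝ) / H)) else 0) +
          (if prim (star (gp p) * z) then (g (star (gp p) * z) : ℝ) *
          w (Real.log (nm z) + Real.log p - Real.log Y + (v : ℝ) / H) / (p : ℝ) ^ 2 else 0)) /
            nm z : ℝ) : ℂ) * ps k z := by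
    intro v _
    unfold PG
    rw [Finset.sum_mul, Finset.sum_comm]
    refine Finset.sum_congr rfl fun p hp => ?_
    have e1 : ps k (gp p) / (p : ℂ) * GA g (Y * Real.exp (-((v : ℝ) / H))) k =
        ∑ z ∈ pball (Real.exp 1 * (Y * Real.exp (-((v : ℝ) / H)))),
        (1 / (p : ℂ)) * ((g z : ℂ) * (bg (Y * Real.exp (-((v : ℝ) / H))) z : ℂ)) *
          ps k (gp p * z) := by
      unfold GA DPG
      rw [Finset.mul_sum]
      refine Finset.sum_congr rfl fun z _ => ?_
      rw [ps_mul]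
      ring
    rw [e1, ← Finset.sum_filter_add_sum_filter_not _ (fun z => prim (gp p * z)),
      partA hf hH hp hY k, partB hH hp hY k, ← Finset.sum_add_distrib]
    refine Finset.sum_congr rfl fun z _ => ?_
    push_cast
    ring
  rw [Finset.sum_congr rfl h1, Finset.sum_comm]
  refine Finset.sum_congr rfl fun z _ => ?_
  rw [← Finset.sum_congr rfl (fun v _ => Finset.sum_mul _ _ _), ← Finset.sum_mul]
  congr 1
  unfold dT dB
  rw [Finset.mul_sum, ← Finset.sum_add_distrib, Finset.sum_div]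
  push_cast
  refine Finset.sum_congr rfl fun v _ => ?_
  rw [Finset.mul_sum, ← Finset.sum_add_distrib, Finset.sum_div]

end Pool.Agent.W305.GM
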