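import Pool.Agent.W305.GM.Dec

/-!
Project GM (helper78), task GM-L, estimates and the final theorem.
-/

set_option autoImplicit false

namespace Pool.Agent.W305.GM

open Finset Filter
open Pool.Agent.H376R2.MR Pool.Agent.H970R2.X Pool.Agent.W78.GM

theorem ball_card (hL : S_LAT) : ∃ C : ℝ, 0 < C ∧ ∀ X : ℝ, 0 < X → ((ball X).card : ℝ) ≤ C * X := by
  obtain ⟨C, hC, h1, _⟩ := hL
  refine ⟨Real.pi + C, by positivity, fun X hX => ?_⟩
  by_cases hX1 : 1 ≤ X
  · have h2 := (abs_le.1 (h1 X hX1)).2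
    have h3 : Real.sqrt X ≤ X := by
      rw [Real.sqrt_le_left hX.le]
      nlinarith
    nlinarith
  · have h4 : ball X = ∅ := by
      rw [Finset.eq_empty_iff_forall_notMem]
      intro z hz
      rw [mem_ball] at hz
      have : (1:ℝ) ≤ nm z := by exact_mod_cast hz.1
      linarith [hz.2]
    rw [h4, Finset.card_empty, Nat.cast_zero]
    positivity

theorem win_sum (hL : S_LAT) : ∃ C : ℝ, 0 < C ∧ ∀ Z : ℝ, 0 < Z →
    ∑ z ∈ win Z, 1 / (nm z : ℝ) ≤ C := by
  obtain ⟨C, hC, h1⟩ := ball_card hL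
  refine ⟨C * (Real.exp 2 * Real.exp 2), by positivity, fun Z hZ => ?_⟩
  have h2 : ∀ z ∈ win Z, 1 / (nm z : ℝ) ≤ Real.exp 2 / Z := by
    intro z hz
    rw [mem_win] at hz
    have h0 : (0 : ℝ) < nm z := by exact_mod_cast hz.1
    rw [div_le_div_iff₀ h0 hZ]
    have := hz.2.1
    rw [div_le_iff₀ (Real.exp_pos 2)] at this
    linarith
  have h3 : ((win Z).card : ℝ) ≤ C * (Real.exp 2 * Z) := by
    refine le_trans ?_ (h1 (Real.exp 2 * Z) (by positivity))
    have : (win Z).card ≤ (ball (Real.exp 2 * Z)).card := by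
      unfold win
      exact Finset.card_filter_le _ _
    exact_mod_cast this
  calc ∑ z ∈ win Z, 1 / (nm z : ℝ) ≤ ∑ z ∈ win Z, Real.exp 2 / Z := Finset.sum_le_sum h2
    _ = (win Z).card * (Real.exp 2 / Z) := by rw [Finset.sum_const, nsmul_eq_mul]
    _ ≤ (C * (Real.exp 2 * Z)) * (Real.exp 2 / Z) :=
        mul_le_mul_of_nonneg_right h3 (by positivity)
    _ = C * (Real.exp 2 * Real.exp 2) := by field_simp

/-- pointwise bound for the contribution of the non-primitive products -/
theorem b_sq {S : Finset ℕ} (hS : ∀ p ∈ S, 1 ≤ p) {Y : ℝ} (hY : 0 < Y) {z : GaussianInt}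
    (hz : z ≠ 0) :
    Y * (∑ p ∈ S, if z ∈ win (Y / (p:ℝ)^2) then 1 / (p:ℝ)^2 else 0) ^ 2 / (nm z : ℝ)^2 ≤
      Real.exp 4 / nm z * ∑ p ∈ S, if z ∈ win (Y / (p:ℝ)^2) then 1 / (p:ℝ) else 0 := by
  rw [← Finset.sum_filter, ← Finset.sum_filter]
  set S' := S.filter (fun p : ℕ => z ∈ win (Y / (p:ℝ)^2)) with hS'
  have hN : (0 : ℝ) < nm z := nm_posR hz
  set N : ℝ := (nm z : ℝ) with hNdef
  set r : ℝ := Real.sqrt (Y / N) with hr
  have hr0 : 0 < r := Real.sqrt_pos.2 (by positivity)
  have hr2 : r ^ 2 = Y / N := Real.sq_sqrt (by positivity)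
  have he : Real.exp 2 = Real.exp 1 ^ 2 := by rw [← Real.exp_nat_mul]; norm_num
  have he4 : Real.exp 4 = Real.exp 1 ^ 4 := by rw [← Real.exp_nat_mul]; norm_num
  have hfac : ∀ p ∈ S', (1 : ℝ) ≤ p ∧ (p : ℝ) ≤ Real.exp 1 * r ∧ r ≤ Real.exp 1 * p := by
    intro p hp
    rw [hS', mem_filter, mem_win] at hp
    obtain ⟨hp1, -, hp2, hp3⟩ := hp
    have h1 : (1 : ℝ) ≤ p := by exact_mod_cast hS p hp1
    have h0 : (0 : ℝ) < p := by linarith
    refine ⟨h1, ?_, ?_⟩
    · have h4 : (p : ℝ) ^ 2 ≤ (Real.exp 1 * r) ^ 2 := by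
        rw [mul_pow, hr2, ← he]
        rw [← mul_div_assoc, le_div_iff₀ hN]
        rw [← mul_div_assoc, le_div_iff₀ (by positivity)] at hp3
        linarith
      exact le_of_sq_le_sq h4 (by positivity)
    · have h4 : r ^ 2 ≤ (Real.exp 1 * p) ^ 2 := by
        rw [mul_pow, hr2, ← he]
        rw [div_le_iff₀ hN]
        rw [div_div, div_le_iff₀ (by positivity)] at hp2
        linarith
      exact le_of_sq_le_sq h4 (by positivity)
  have hcard : ((S'.card : ℕ) : ℝ) ≤ Real.exp 1 * r := by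
    have h1 : S' ⊆ Icc 1 ⌊Real.exp 1 * r⌋₊ := by
      intro p hp
      rw [mem_Icc]
      obtain ⟨h2, h3, _⟩ := hfac p hp
      exact ⟨by exact_mod_cast h2, Nat.le_floor h3⟩
    have h4 := Finset.card_le_card h1
    rw [Nat.card_Icc, Nat.add_sub_cancel] at h4
    calc (S'.card : ℝ) ≤ (⌊Real.exp 1 * r⌋₊ : ℝ) := by exact_mod_cast h4
      _ ≤ _ := Nat.floor_le (by positivity)
  set b : ℝ := ∑ p ∈ S', 1 / (p:ℝ)^2 with hb
  have hb0 : 0 ≤ b := Finset.sum_nonneg fun p _ => by positivity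
  have hb1 : b ≤ Real.exp 1 ^ 3 / r := by
    have h1 : ∀ p ∈ S', 1 / (p:ℝ)^2 ≤ Real.exp 1 ^ 2 / r ^ 2 := by
      intro p hp
      obtain ⟨h2, h3, h4⟩ := hfac p hp
      rw [div_le_div_iff₀ (by positivity) (by positivity)]
      have := pow_le_pow_left₀ hr0.le h4 2
      rw [mul_pow] at this
      linarith
    calc b ≤ ∑ p ∈ S', Real.exp 1 ^ 2 / r ^ 2 := Finset.sum_le_sum h1
      _ = (S'.card : ℝ) * (Real.exp 1 ^ 2 / r ^ 2) := by rw [Finset.sum_const, nsmul_eq_mul]
      _ ≤ (Real.exp 1 * r) * (Real.exp 1 ^ 2 / r ^ 2) :=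
          mul_le_mul_of_nonneg_right hcard (by positivity)
      _ = Real.exp 1 ^ 3 / r := by field_simp
  have hb2 : r * b ≤ Real.exp 1 * ∑ p ∈ S', 1 / (p : ℝ) := by
    rw [hb, Finset.mul_sum, Finset.mul_sum]
    refine Finset.sum_le_sum fun p hp => ?_
    obtain ⟨h2, h3, h4⟩ := hfac p hp
    have h0 : (0 : ℝ) < p := by linarith
    rw [mul_one_div, mul_one_div, div_le_div_iff₀ (by positivity) h0]
    calc r * p ≤ (Real.exp 1 * p) * p := mul_le_mul_of_nonneg_right h4 h0.le
      _ = Real.exp 1 * (p : ℝ) ^ 2 := by ring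
  have hYr : Y = r ^ 2 * N := by rw [hr2]; field_simp
  calc Y * b ^ 2 / N ^ 2 = (r * b) * (r * b) / N := by
        rw [hYr]; field_simp
    _ ≤ (r * (Real.exp 1 ^ 3 / r)) * (r * b) / N := by
        apply div_le_div_of_nonneg_right _ hN.le
        exact mul_le_mul_of_nonneg_right (mul_le_mul_of_nonneg_left hb1 hr0.le) (by positivity)
    _ ≤ (r * (Real.exp 1 ^ 3 / r)) * (Real.exp 1 * ∑ p ∈ S', 1 / (p : ℝ)) / N := by
        apply div_le_div_of_nonneg_right _ hN.le
        exact mul_le_mul_of_nonneg_left hb2 (by positivity)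
    _ = Real.exp 4 / N * ∑ p ∈ S', 1 / (p : ℝ) := by
        rw [he4]; field_simp

theorem dB_le {g : GaussianInt → ℤ} (hb : BddG g) {H v₀ v₁ : ℕ} (hH : 1 ≤ H) {Y : ℝ} (hY : 1 ≤ Y)
    {z : GaussianInt} (hz : prim z) :
    |dB g H v₀ v₁ Y z| ≤ ∑ v ∈ Ico v₀ v₁, ∑ p ∈ cellP (P1 4) H v,
      if z ∈ win (Y / (p:ℝ)^2) then 1 / (p:ℝ)^2 else 0 := by
  unfold dB
  have hN : (0 : ℝ) < nm z := nm_prim_pos hz
  have hY0 : 0 < Y := by linarith
  have hH0 : (0:ℝ) < H := by exact_mod_cast hH
  refine (Finset.abs_sum_le_sum_abs _ _).trans (Finset.sum_le_sum fun v _ => ?_)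
  refine (Finset.abs_sum_le_sum_abs _ _).trans (Finset.sum_le_sum fun p hp => ?_)
  obtain ⟨hpp, hp4, hp1, hp2⟩ := cellP_facts hp
  have hp0 : (0:ℝ) < p := by exact_mod_cast hpp.pos
  by_cases hin : z ∈ win (Y / (p:ℝ)^2)
  · rw [if_pos hin]
    split_ifs with h
    · rw [abs_div, abs_mul, abs_of_pos (by positivity : (0:ℝ) < (p:ℝ)^2)]
      apply div_le_div_of_nonneg_right _ (by positivity)
      have h1 : |(g (star (gp p) * z) : ℝ)| ≤ 1 := by
        have := hb (star (gp p) * z)
        rw [← Int.cast_abs]; exact_mod_cast this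
      have h2 : |w (Real.log (nm z) + Real.log p - Real.log Y + (v : ℝ) / H)| ≤ 1 := by
        rw [abs_of_nonneg (dec_w_nonneg _)]; exact dec_w_le _
      exact mul_le_one₀ h1 (abs_nonneg _) h2
    · rw [abs_zero]; positivity
  · rw [if_neg hin]
    have hw : w (Real.log (nm z) + Real.log p - Real.log Y + (v : ℝ) / H) = 0 := by
      apply dec_w_zero
      by_contra hcon
      rw [not_le, abs_lt] at hcon
      obtain ⟨ha, hb'⟩ := hcon
      apply hin
      have h3 : ((v : ℝ) + 1) / H = (v : ℝ) / H + 1 / H := by ring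
      have h4 : (1 : ℝ) / H ≤ 1 := by
        rw [div_le_one hH0]; exact_mod_cast hH
      have hlz : Real.log (Y / (p:ℝ)^2) = Real.log Y - 2 * Real.log p := by
        rw [Real.log_div hY0.ne' (by positivity), Real.log_pow]; push_cast; ring
      rw [mem_win]
      refine ⟨nm_pos (prim_ne_zero hz), ?_, ?_⟩
      · rw [← Real.log_le_log_iff (by positivity) hN, Real.log_div (by positivity) (Real.exp_pos 2).ne',
          Real.log_exp, hlz]
        linarith
      · rw [← Real.log_le_log_iff hN (by positivity), Real.log_mul (Real.exp_pos 2).ne' (by positivity),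
          Real.log_exp, hlz]
        linarith
    rw [hw]
    simp

theorem dec_of (hL : S_LAT) (hTK : S_TK) : S_DEC := by
  classical
  intro g hb hf
  obtain ⟨Cw, hCw, hwin⟩ := win_sum hL
  obtain ⟨C, hC, htk⟩ := hTK
  refine ⟨2 * (Real.exp 2 * (6 * C + 4 * Cw)) + 2 * (Real.exp 4 * Cw), by positivity, ?_⟩
  intro H v₀ v₁ hH hHv hW Y hexp
  set W : ℝ := ∑ v ∈ Ico v₀ v₁, mG H v with hWdef
  have hY : 1 ≤ Y := by
    refine le_trans ?_ hexp
    rw [← Real.exp_zero]
    apply Real.exp_le_exp.mpr; positivity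
  have hY0 : 0 < Y := by linarith
  have hH0 : (0:ℝ) < H := by exact_mod_cast hH
  have hH1 : (1:ℝ) ≤ H := by exact_mod_cast hH
  have hW0 : 0 < W := by linarith
  have hWc : (W : ℂ) ≠ 0 := by exact_mod_cast hW0.ne'
  set S : Finset ℕ := (Ico v₀ v₁).biUnion (cellP (P1 4) H) with hS
  have hdisj : Set.PairwiseDisjoint (↑(Ico v₀ v₁) : Set ℕ) (cellP (P1 4) H) := by
    intro v _ v' _ hne
    rw [Function.onFun, Finset.disjoint_left]
    intro p hp hp'
    exact hne (dec_disj hH (xdec_cellP hp).1 (xdec_cellP hp').1)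
  have hWS : ∑ p ∈ S, 1 / (p : ℝ) = W := by
    rw [hS, Finset.sum_biUnion hdisj, hWdef]; rfl
  have hSm : ∀ p ∈ S, p.Prime ∧ p % 4 = 1 ∧ (p : ℝ) ≤ Real.exp ((v₁ : ℝ) / H) := by
    intro p hp
    rw [hS, mem_biUnion] at hp
    obtain ⟨v, hv, hp⟩ := hp
    obtain ⟨h1, h2, h3, h4⟩ := cellP_facts hp
    refine ⟨h1, h2, ?_⟩
    have hp0 : (0:ℝ) < p := by exact_mod_cast h1.pos
    rw [← Real.log_le_iff_le_exp hp0]
    refine h4.le.trans ?_
    apply div_le_div_of_nonneg_right _ hH0.le
    have := (mem_Ico.mp hv).2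
    exact_mod_cast this
  have hTK := htk S gp (Real.exp ((v₁ : ℝ) / H)) Y (fun p hp =>
    ⟨(hSm p hp).1, (hSm p hp).2.1, (hSm p hp).2.2, gp_nm (hSm p hp).1 (hSm p hp).2.1⟩)
    (by rw [hWS]; exact hW) (by
    rw [← Real.exp_nat_mul]
    refine le_trans (le_of_eq ?_) hexp
    congr 1; push_cast; ring)
  rw [hWS] at hTK
  set D := pball (Real.exp 2 * Y) with hD
  refine ⟨D, fun z => ((((g z : ℝ) * (w (Real.log (nm z) - Real.log Y) - dT H v₀ v₁ Y z / W) +
      dB g H v₀ v₁ Y z / W) / nm z : ℝ) : ℂ), ?_, ?_, ?_⟩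
  · intro z hz
    rw [hD, mem_pball] at hz
    exact hz
  · intro k
    rw [sum_eq hf hH hY k, GA_eq g hY k]
    unfold DPG
    rw [Finset.mul_sum, ← Finset.sum_add_distrib]
    refine Finset.sum_congr rfl fun z hz => ?_
    rw [mem_pball] at hz
    have hzc : ((nm z : ℕ) : ℂ) ≠ 0 := by exact_mod_cast (nm_prim_pos hz.1).ne'
    push_cast
    field_simp
    ring
  · rw [Finset.mul_sum]
    -- pointwise bound
    have hpt : ∀ z ∈ D, Y * ‖((((g z : ℝ) * (w (Real.log (nm z) - Real.log Y) -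
        dT H v₀ v₁ Y z / W) + dB g H v₀ v₁ Y z / W) / nm z : ℝ) : ℂ)‖ ^ 2 ≤
        2 * (if z ∈ win Y then Real.exp 2 *
          ((2 / W ^ 2 + 4 / (H ^ 2 * W ^ 2)) *
          ((((S.filter (fun p => gp p ∣ z)).card : ℝ) - W) ^ 2 / nm z) +
          4 / H ^ 2 * (1 / nm z)) else 0) +
        2 * (1 / W ^ 2 * (Real.exp 4 / nm z *
          ∑ p ∈ S, if z ∈ win (Y / (p:ℝ)^2) then 1 / (p:ℝ) else 0)) := by
      intro z hz
      rw [hD, mem_pball] at hz
      have hN := nm_prim_pos hz.1
      have hzne := prim_ne_zero hz.1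
      rw [Complex.norm_real, Real.norm_eq_abs, sq_abs, div_pow]
      set N : ℝ := (nm z : ℝ) with hNd
      set x : ℝ := w (Real.log N - Real.log Y) with hx
      set T : ℝ := dT H v₀ v₁ Y z with hTd
      set B : ℝ := dB g H v₀ v₁ Y z with hBd
      have hg : (g z : ℝ) ^ 2 ≤ 1 := by
        have h2 : |(g z : ℝ)| ≤ 1 := by
          have := hb z
          rw [← Int.cast_abs]; exact_mod_cast this
        rw [← sq_abs]
        nlinarith [abs_nonneg (g z : ℝ)]
      have hsplit : ((g z : ℝ) * (x - T / W) + B / W) ^ 2 ≤ 2 * (x - T / W) ^ 2 +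
          2 * (1 / W ^ 2 * B ^ 2) := by
        have h1 : ((g z : ℝ) * (x - T / W) + B / W) ^ 2 ≤ 2 * ((g z : ℝ) * (x - T / W)) ^ 2 +
            2 * (B / W) ^ 2 := by
          nlinarith [sq_nonneg ((g z : ℝ) * (x - T / W) - B / W)]
        have h2 : ((g z : ℝ) * (x - T / W)) ^ 2 ≤ (x - T / W) ^ 2 := by
          rw [mul_pow]
          nlinarith [sq_nonneg (x - T / W)]
        have h3 : (B / W) ^ 2 = 1 / W ^ 2 * B ^ 2 := by rw [div_pow]; ring
        rw [h3] at h1
        linarith
      have hmain1 : Y / N ^ 2 * (x - T / W) ^ 2 ≤ if z ∈ win Y then Real.exp 2 *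
          ((2 / W ^ 2 + 4 / (H ^ 2 * W ^ 2)) *
          ((((S.filter (fun p => gp p ∣ z)).card : ℝ) - W) ^ 2 / N) +
          4 / H ^ 2 * (1 / N)) else 0 := by
        by_cases hwin' : z ∈ win Y
        · rw [if_pos hwin']
          set om : ℝ := ((S.filter (fun p => gp p ∣ z)).card : ℝ) with hom'
          have hom : om = ∑ v ∈ Ico v₀ v₁, ∑ p ∈ cellP (P1 4) H v,
              if gp p ∣ z then (1 : ℝ) else 0 := by
            rw [hom', Finset.card_filter]
            push_cast
            rw [hS, Finset.sum_biUnion hdisj]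
          have hT : |om * x - T| ≤ om / H := by
            have e1 : om * x - T = ∑ v ∈ Ico v₀ v₁, ∑ p ∈ cellP (P1 4) H v,
                (if gp p ∣ z then (x - w (Real.log N - Real.log Y -
                  (Real.log p - (v : ℝ) / H))) else 0) := by
              rw [hom, Finset.sum_mul, hTd]
              unfold dT
              rw [← Finset.sum_sub_distrib]
              refine Finset.sum_congr rfl fun v _ => ?_
              rw [Finset.sum_mul, ← Finset.sum_sub_distrib]
              refine Finset.sum_congr rfl fun p _ => ?_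
              split_ifs <;> simp [hNd]
            have e2 : om / H = ∑ v ∈ Ico v₀ v₁, ∑ p ∈ cellP (P1 4) H v,
                (if gp p ∣ z then 1 / (H : ℝ) else 0) := by
              rw [hom, Finset.sum_div]
              refine Finset.sum_congr rfl fun v _ => ?_
              rw [Finset.sum_div]
              refine Finset.sum_congr rfl fun p _ => ?_
              split_ifs <;> simp
            rw [e1, e2]
            refine (Finset.abs_sum_le_sum_abs _ _).trans (Finset.sum_le_sum fun v _ => ?_)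
            refine (Finset.abs_sum_le_sum_abs _ _).trans (Finset.sum_le_sum fun p hp => ?_)
            obtain ⟨_, _, h2, h3⟩ := cellP_facts hp
            split_ifs with hd
            · refine (dec_w_lip _ _).trans ?_
              have e3 : Real.log N - Real.log Y -
                (Real.log N - Real.log Y - (Real.log p - (v : ℝ) / H)) =
                Real.log p - (v : ℝ) / H := by ring
              rw [e3, abs_of_nonneg (by linarith)]
              have e4 : ((v : ℝ) + 1) / H = (v : ℝ) / H + 1 / H := by ring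
              linarith
            · simp
          have hr := dec_real hW hH1 (dec_w_nonneg (Real.log N - Real.log Y))
            (dec_w_le (Real.log N - Real.log Y)) (by positivity : 0 ≤ om) hT
          have hYN : Y / N ≤ Real.exp 2 := by
            rw [mem_win] at hwin'
            rw [div_le_iff₀ hN]
            have := hwin'.2.1
            rw [div_le_iff₀ (Real.exp_pos 2)] at this
            linarith
          calc Y / N ^ 2 * (x - T / W) ^ 2 = (Y / N) * ((1 / N) * (x - T / W) ^ 2) := by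
                field_simp
            _ ≤ Real.exp 2 * ((1 / N) * (x - T / W) ^ 2) :=
                mul_le_mul_of_nonneg_right hYN (by positivity)
            _ ≤ Real.exp 2 * ((1 / N) * (2 * ((om - W) ^ 2 / W ^ 2 +
                  (2 * (om - W) ^ 2 + 2 * W ^ 2) / ((H : ℝ) ^ 2 * W ^ 2)))) := by
                apply mul_le_mul_of_nonneg_left _ (Real.exp_pos 2).le
                exact mul_le_mul_of_nonneg_left hr (by positivity)
            _ = _ := by field_simp; ring
        · rw [if_neg hwin']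
          have hlt : N < Y / Real.exp 2 := by
            by_contra hcon
            rw [not_lt] at hcon
            apply hwin'
            rw [mem_win]
            exact ⟨nm_pos hzne, hcon, hz.2⟩
          have hll := Real.log_lt_log hN hlt
          rw [Real.log_div hY0.ne' (Real.exp_pos 2).ne', Real.log_exp] at hll
          have hx0 : x = 0 := by
            rw [hx]
            apply dec_w_zero
            rw [abs_of_neg (by linarith)]; linarith
          have hT0 : T = 0 := by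
            rw [hTd]
            unfold dT
            refine Finset.sum_eq_zero fun v _ => Finset.sum_eq_zero fun p hp => ?_
            obtain ⟨_, _, h2, h3⟩ := cellP_facts hp
            split_ifs
            · apply dec_w_zero
              rw [abs_of_neg (by linarith)]; linarith
            · rfl
          rw [hx0, hT0]
          simp
      have hmain2 : Y / N ^ 2 * B ^ 2 ≤ Real.exp 4 / N *
          ∑ p ∈ S, if z ∈ win (Y / (p:ℝ)^2) then 1 / (p:ℝ) else 0 := by
        have h1 := dB_le hb (v₀ := v₀) (v₁ := v₁) hH hY hz.1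
        rw [← Finset.sum_biUnion hdisj, ← hS] at h1
        have h2 := b_sq (S := S) (fun p hp => (hSm p hp).1.one_lt.le) hY0 hzne
        refine le_trans ?_ h2
        have h3 : B ^ 2 ≤ (∑ p ∈ S, if z ∈ win (Y / (p:ℝ)^2) then 1 / (p:ℝ)^2 else 0) ^ 2 := by
          rw [← sq_abs B]
          exact pow_le_pow_left₀ (abs_nonneg _) h1 2
        calc Y / N ^ 2 * B ^ 2 ≤ Y / N ^ 2 *
              (∑ p ∈ S, if z ∈ win (Y / (p:ℝ)^2) then 1 / (p:ℝ)^2 else 0) ^ 2 :=
              mul_le_mul_of_nonneg_left h3 (by positivity)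
          _ = _ := by ring
      calc Y * (((g z : ℝ) * (x - T / W) + B / W) ^ 2 / N ^ 2)
          = Y / N ^ 2 * ((g z : ℝ) * (x - T / W) + B / W) ^ 2 := by ring
        _ ≤ Y / N ^ 2 * (2 * (x - T / W) ^ 2 + 2 * (1 / W ^ 2 * B ^ 2)) :=
            mul_le_mul_of_nonneg_left hsplit (by positivity)
        _ = 2 * (Y / N ^ 2 * (x - T / W) ^ 2) + 2 * (1 / W ^ 2 * (Y / N ^ 2 * B ^ 2)) := by ring
        _ ≤ _ := by
            apply add_le_add
            · exact mul_le_mul_of_nonneg_left hmain1 (by norm_num)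
            · apply mul_le_mul_of_nonneg_left _ (by norm_num)
              exact mul_le_mul_of_nonneg_left hmain2 (by positivity)
    refine (Finset.sum_le_sum hpt).trans ?_
    rw [Finset.sum_add_distrib, ← Finset.mul_sum, ← Finset.mul_sum, ← Finset.mul_sum]
    -- first sum
    have hs1 : (∑ z ∈ D, if z ∈ win Y then Real.exp 2 *
          ((2 / W ^ 2 + 4 / (H ^ 2 * W ^ 2)) *
          ((((S.filter (fun p => gp p ∣ z)).card : ℝ) - W) ^ 2 / nm z) +
          4 / H ^ 2 * (1 / nm z)) else 0) ≤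
        Real.exp 2 * (6 * C + 4 * Cw) * (1 / W + 1 / (H : ℝ) ^ 2) := by
      have h1 : (∑ z ∈ D, if z ∈ win Y then Real.exp 2 *
          ((2 / W ^ 2 + 4 / (H ^ 2 * W ^ 2)) *
          ((((S.filter (fun p => gp p ∣ z)).card : ℝ) - W) ^ 2 / nm z) +
          4 / H ^ 2 * (1 / nm z)) else 0) ≤
          ∑ z ∈ win Y, Real.exp 2 *
          ((2 / W ^ 2 + 4 / (H ^ 2 * W ^ 2)) *
          ((((S.filter (fun p => gp p ∣ z)).card : ℝ) - W) ^ 2 / nm z) +
          4 / H ^ 2 * (1 / nm z)) := by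
        rw [← Finset.sum_filter]
        refine Finset.sum_le_sum_of_subset_of_nonneg ?_ ?_
        · intro z hz
          exact (mem_filter.1 hz).2
        · intro z _ _
          positivity
      refine h1.trans ?_
      rw [← Finset.mul_sum, Finset.sum_add_distrib, ← Finset.mul_sum, ← Finset.mul_sum, mul_assoc]
      apply mul_le_mul_of_nonneg_left _ (Real.exp_pos 2).le
      have hinv := hwin Y hY0
      have hTK' : ∑ z ∈ win Y, (((S.filter (fun p => gp p ∣ z)).card : ℝ) - W) ^ 2 / (nm z : ℝ) ≤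
          C * W := hTK
      have hc : 0 ≤ 2 / W ^ 2 + 4 / ((H : ℝ) ^ 2 * W ^ 2) := by positivity
      calc (2 / W ^ 2 + 4 / ((H : ℝ) ^ 2 * W ^ 2)) *
            ∑ z ∈ win Y, (((S.filter (fun p => gp p ∣ z)).card : ℝ) - W) ^ 2 / (nm z : ℝ) +
            4 / (H : ℝ) ^ 2 * ∑ z ∈ win Y, (1 : ℝ) / (nm z : ℝ)
          ≤ (2 / W ^ 2 + 4 / ((H : ℝ) ^ 2 * W ^ 2)) * (C * W) + 4 / (H : ℝ) ^ 2 * Cw := by
            apply add_le_add
            · exact mul_le_mul_of_nonneg_left hTK' hc
            · exact mul_le_mul_of_nonneg_left hinv (by positivity)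
        _ ≤ (6 / W ^ 2) * (C * W) + 4 / (H : ℝ) ^ 2 * Cw := by
            have h6 : 4 / ((H : ℝ) ^ 2 * W ^ 2) ≤ 4 / W ^ 2 := by
              apply div_le_div_of_nonneg_left (by norm_num) (by positivity)
              have : (1:ℝ) ≤ (H : ℝ) ^ 2 := by nlinarith
              nlinarith [sq_nonneg W]
            have h7 : 2 / W ^ 2 + 4 / ((H : ℝ) ^ 2 * W ^ 2) ≤ 6 / W ^ 2 := by
              have : (6:ℝ) / W ^ 2 = 2 / W ^ 2 + 4 / W ^ 2 := by ring
              linarith
            have := mul_le_mul_of_nonneg_right h7 (by positivity : 0 ≤ C * W)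
            linarith
        _ = 6 * C * (1 / W) + 4 * Cw * (1 / (H : ℝ) ^ 2) := by
            field_simp
        _ ≤ 6 * C * (1 / W) + 4 * Cw * (1 / (H : ℝ) ^ 2) +
              (6 * C * (1 / (H : ℝ) ^ 2) + 4 * Cw * (1 / W)) := by
            have h1 : 0 ≤ 6 * C * (1 / (H : ℝ) ^ 2) := by positivity
            have h2 : 0 ≤ 4 * Cw * (1 / W) := by positivity
            exact le_add_of_nonneg_right (add_nonneg h1 h2)
        _ = (6 * C + 4 * Cw) * (1 / W + 1 / (H : ℝ) ^ 2) := by ring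
    -- second sum
    have hs2 : ∑ z ∈ D, (Real.exp 4 / nm z *
          ∑ p ∈ S, if z ∈ win (Y / (p:ℝ)^2) then 1 / (p:ℝ) else 0) ≤ Real.exp 4 * Cw * W := by
      have h1 : ∑ z ∈ D, (Real.exp 4 / nm z *
          ∑ p ∈ S, if z ∈ win (Y / (p:ℝ)^2) then 1 / (p:ℝ) else 0) =
          ∑ p ∈ S, Real.exp 4 * (1 / (p : ℝ)) * ∑ z ∈ D,
            if z ∈ win (Y / (p:ℝ)^2) then 1 / (nm z : ℝ) else 0 := by
        simp_rw [Finset.mul_sum]
        rw [Finset.sum_comm]
        refine Finset.sum_congr rfl fun p _ => Finset.sum_congr rfl fun z _ => ?_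
        split_ifs
        · ring
        · simp
      rw [h1]
      have h2 : ∀ p ∈ S, Real.exp 4 * (1 / (p : ℝ)) * (∑ z ∈ D,
            if z ∈ win (Y / (p:ℝ)^2) then 1 / (nm z : ℝ) else 0) ≤
          Real.exp 4 * Cw * (1 / (p : ℝ)) := by
        intro p hp
        have hp0 : (0:ℝ) < p := by exact_mod_cast (hSm p hp).1.pos
        have h3 : (∑ z ∈ D, if z ∈ win (Y / (p:ℝ)^2) then 1 / (nm z : ℝ) else 0) ≤ Cw := by
          refine le_trans ?_ (hwin (Y / (p:ℝ)^2) (by positivity))
          rw [← Finset.sum_filter]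
          refine Finset.sum_le_sum_of_subset_of_nonneg ?_ ?_
          · intro z hz
            exact (mem_filter.1 hz).2
          · intro z _ _
            positivity
        calc Real.exp 4 * (1 / (p : ℝ)) * _ ≤ Real.exp 4 * (1 / (p : ℝ)) * Cw :=
              mul_le_mul_of_nonneg_left h3 (by positivity)
          _ = _ := by ring
      refine (Finset.sum_le_sum h2).trans ?_
      rw [← Finset.mul_sum, hWS]
    calc 2 * (∑ z ∈ D, if z ∈ win Y then Real.exp 2 *
          ((2 / W ^ 2 + 4 / (H ^ 2 * W ^ 2)) *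
          ((((S.filter (fun p => gp p ∣ z)).card : ℝ) - W) ^ 2 / nm z) +
          4 / H ^ 2 * (1 / nm z)) else 0) + 2 * (1 / W ^ 2 * ∑ z ∈ D, (Real.exp 4 / nm z *
          ∑ p ∈ S, if z ∈ win (Y / (p:ℝ)^2) then 1 / (p:ℝ) else 0))
        ≤ 2 * (Real.exp 2 * (6 * C + 4 * Cw) * (1 / W + 1 / (H : ℝ) ^ 2)) +
          2 * (1 / W ^ 2 * (Real.exp 4 * Cw * W)) := by
          apply add_le_add
          · exact mul_le_mul_of_nonneg_left hs1 (by norm_num)
          · apply mul_le_mul_of_nonneg_left _ (by norm_num)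
            exact mul_le_mul_of_nonneg_left hs2 (by positivity)
      _ = 2 * (Real.exp 2 * (6 * C + 4 * Cw)) * (1 / W + 1 / (H : ℝ) ^ 2) +
          2 * (Real.exp 4 * Cw) * (1 / W) := by
          field_simp
      _ ≤ 2 * (Real.exp 2 * (6 * C + 4 * Cw)) * (1 / W + 1 / (H : ℝ) ^ 2) +
          2 * (Real.exp 4 * Cw) * (1 / W) + 2 * (Real.exp 4 * Cw) * (1 / (H : ℝ) ^ 2) := by
          have h1 : 0 ≤ 2 * (Real.exp 4 * Cw) * (1 / (H : ℝ) ^ 2) := by positivity
          exact le_add_of_nonneg_right h1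
      _ = _ := by ring

end Pool.Agent.W305.GM
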